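import Pool.Agent.Y804.MC.Loc

/-!
# Lower bound for the number of test vectors in boxes with several scales
-/

namespace Pool.Agent.Y804.MC

open Pool.Agent.Y716.Q Pool.Agent.Y716.M

variable {r : ℕ} {n : Fin r → ℕ}

theorem box_abs {Λ : Fin r → ℝ} {ξ : Var n → ℝ} {a₀ : Var n} {ρ ρ' : ℝ} {x : Var n → ℤ}
    (hΛ : ∀ i, 0 < Λ i) (hρ : 0 ≤ ρ) (hρρ' : ρ ≤ ρ') (hρ' : ρ' ≤ 1 / 2) (hξ : ∀ a, |ξ a| ≤ 1)
    (hx : InBoxM Λ ξ a₀ ρ ρ' (fun a => (x a : ℝ))) (a : Var n) : |(x a : ℝ)| ≤ 2 * Λ a.1 := by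
  have hwd : ∀ i, 0 ≤ wd a₀ ρ ρ' i ∧ wd a₀ ρ ρ' i ≤ 1 / 2 := by
    intro i
    unfold wd
    split_ifs
    · exact ⟨hρ.trans hρρ', hρ'⟩
    · exact ⟨hρ, hρρ'.trans hρ'⟩
  have h1 := hx a
  have h2 := hwd a
  have h3 := abs_le.mp (hξ a)
  have h4 := hΛ a.1
  rw [abs_le]
  constructor <;> nlinarith

theorem box_sz {Λ : Fin r → ℝ} {ξ : Var n → ℝ} {a₀ : Var n} {ρ ρ' : ℝ} {x : Var n → ℤ}
    (hΛ : ∀ i, 0 < Λ i) (hρ : 0 ≤ ρ) (hρρ' : ρ ≤ ρ') (hρ' : ρ' ≤ 1 / 2) (hξ : ∀ a, |ξ a| ≤ 1)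
    (hξr : Norm1 ξ) (hx : InBoxM Λ ξ a₀ ρ ρ' (fun a => (x a : ℝ))) (i : Fin r) :
    Sz (2 * Λ i) (bl x i) := by
  have hwd : ∀ i, 0 ≤ wd a₀ ρ ρ' i ∧ wd a₀ ρ ρ' i ≤ 1 / 2 := by
    intro i
    unfold wd
    split_ifs
    · exact ⟨hρ.trans hρρ', hρ'⟩
    · exact ⟨hρ, hρρ'.trans hρ'⟩
  constructor
  · intro j
    exact box_abs hΛ hρ hρρ' hρ' hξ hx ⟨i, j⟩
  · obtain ⟨j, hj⟩ := hξr i
    refine ⟨j, ?_⟩
    have h1 := (hx ⟨i, j⟩).1
    have h2 := hwd ⟨i, j⟩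
    have h4 := hΛ i
    rw [hj] at h1
    refine le_trans ?_ (le_abs_self _)
    unfold bl
    simp only at h1
    nlinarith

theorem prod_block {i : Fin r} (A : Fin r → ℝ) (c : ℝ) :
    ∏ a : Var n, (if a.1 = i then A a.1 * c else A a.1) =
      (∏ l, A l ^ (n l + 1)) * c ^ (n i + 1) := by
  classical
  rw [Fintype.prod_sigma]
  simp only
  have h1 : ∀ l : Fin r, ∏ _j : Fin (n l + 1), (if l = i then A l * c else A l) =
      A l ^ (n l + 1) * (if l = i then c ^ (n i + 1) else 1) := by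
    intro l
    split_ifs with h
    · subst h
      rw [Finset.prod_const, Finset.card_univ, Fintype.card_fin, mul_pow]
    · rw [Finset.prod_const, Finset.card_univ, Fintype.card_fin, mul_one]
  rw [Finset.prod_congr rfl (fun l _ => h1 l), Finset.prod_mul_distrib, Finset.prod_ite_eq']
  simp

theorem card_ivl_le_six {B : ℝ} (hB : 1 ≤ B) : ((ivl (-B) B).card : ℝ) ≤ 3 * B := by
  have := card_ivl_le (a := -B) (b := B) (by linarith)
  linarith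

/-- number of vectors of a box with a divisible block -/
theorem div_blockM {Λ : Fin r → ℝ} (hΛ : ∀ i, 1 ≤ Λ i) (i : Fin r) (p : ℕ) (hp : 0 < p)
    (hpΛ : (p : ℝ) ≤ 2 * Λ i) (U : Finset (Var n → ℤ))
    (hU : ∀ x ∈ U, (∀ a, |(x a : ℝ)| ≤ 2 * Λ a.1) ∧ ∀ j, (p : ℤ) ∣ x ⟨i, j⟩) :
    (U.card : ℝ) ≤ (∏ l, (6 * Λ l) ^ (n l + 1)) * (1 / (p : ℝ)) ^ (n i + 1) := by
  classical
  have hp0 : (0:ℝ) < p := by exact_mod_cast hp
  have hpz : (p : ℤ) ≠ 0 := by exact_mod_cast hp.ne'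
  have hU2 : ∀ x ∈ U, ∀ a : Var n, a.1 = i → (p : ℤ) ∣ x a := by
    intro x hx a ha
    obtain ⟨l, j⟩ := a
    simp only at ha
    subst ha
    exact (hU x hx).2 j
  have h1 : U.card ≤ (Fintype.piFinset (fun a : Var n =>
      if a.1 = i then ivl (-(2 * Λ i / p)) (2 * Λ i / p) else
        ivl (-(2 * Λ a.1)) (2 * Λ a.1))).card := by
    apply Finset.card_le_card_of_injOn (fun x a => if a.1 = i then x a / (p : ℤ) else x a)
    · intro x hx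
      obtain ⟨h1, _⟩ := hU x hx
      simp only [Finset.mem_coe, Fintype.mem_piFinset]
      intro a
      split_ifs with ha
      · obtain ⟨c, hc⟩ := hU2 x hx a ha
        have h3 : x a / (p : ℤ) = c := by
          rw [hc]; exact Int.mul_ediv_cancel_left _ hpz
        rw [h3, mem_ivl, ← abs_le, le_div_iff₀ hp0]
        have h4 := h1 a
        rw [hc] at h4
        push_cast at h4
        rw [abs_mul, abs_of_pos hp0, ha] at h4
        linarith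
      · rw [mem_ivl, ← abs_le]
        exact h1 a
    · intro x hx y hy heq
      funext a
      have h3 := congrFun heq a
      simp only at h3
      split_ifs at h3 with ha
      · rw [← Int.mul_ediv_cancel' (hU2 x hx a ha), ← Int.mul_ediv_cancel' (hU2 y hy a ha), h3]
      · exact h3
  rw [Fintype.card_piFinset] at h1
  have h2 : (U.card : ℝ) ≤ ∏ a : Var n, (if a.1 = i then (6 * Λ a.1) * (1 / p) else 6 * Λ a.1) := by
    have h3 : (U.card : ℝ) ≤ ∏ a : Var n, (((if a.1 = i then ivl (-(2 * Λ i / p)) (2 * Λ i / p) else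
        ivl (-(2 * Λ a.1)) (2 * Λ a.1)) : Finset ℤ).card : ℝ) := by exact_mod_cast h1
    refine h3.trans (Finset.prod_le_prod (fun a _ => Nat.cast_nonneg _) (fun a _ => ?_))
    split_ifs with ha
    · rw [ha]
      have h4 : 1 ≤ 2 * Λ i / p := by rw [le_div_iff₀ hp0]; linarith
      refine (card_ivl_le_six h4).trans (le_of_eq ?_)
      ring
    · refine (card_ivl_le_six (by have := hΛ a.1; linarith)).trans (le_of_eq ?_)
      ring
  refine h2.trans (le_of_eq ?_)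
  exact prod_block (fun l => 6 * Λ l) (1 / (p : ℝ))

/-- vectors of a box with main block in a given set -/
theorem unbal_blockM {Λ : Fin r → ℝ} (hΛ : ∀ i, 1 ≤ Λ i) (b : Fin r) (V : Finset (Var n → ℤ))
    (U : Finset (Fin (n b + 1) → ℤ)) (hVU : ∀ x ∈ V, bl x b ∈ U)
    (hV : ∀ x ∈ V, ∀ a, |(x a : ℝ)| ≤ 2 * Λ a.1) :
    (V.card : ℝ) ≤ (U.card : ℝ) * ∏ i ∈ Finset.univ.erase b, (6 * Λ i) ^ (n i + 1) := by
  classical
  have h1 : V.card ≤ (U ×ˢ (Fintype.piFinset (fun a : Var n =>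
      if a.1 = b then ({0} : Finset ℤ) else ivl (-(2 * Λ a.1)) (2 * Λ a.1)))).card := by
    apply Finset.card_le_card_of_injOn (fun x => (bl x b, fun a => if a.1 = b then 0 else x a))
    · intro x hx
      simp only [Finset.mem_coe, Finset.mem_product, Fintype.mem_piFinset]
      refine ⟨hVU x hx, fun a => ?_⟩
      split_ifs with ha
      · simp
      · rw [mem_ivl, ← abs_le]
        exact hV x hx a
    · intro x hx y hy heq
      simp only [Prod.mk.injEq] at heq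
      obtain ⟨h2, h3⟩ := heq
      funext a
      by_cases ha : a.1 = b
      · obtain ⟨l, j⟩ := a
        simp only at ha
        subst ha
        exact congrFun h2 j
      · have := congrFun h3 a
        simp only [if_neg ha] at this
        exact this
  rw [Finset.card_product, Fintype.card_piFinset] at h1
  have h2 : (V.card : ℝ) ≤ (U.card : ℝ) * ∏ a : Var n, (((if a.1 = b then ({0} : Finset ℤ) else
      ivl (-(2 * Λ a.1)) (2 * Λ a.1)) : Finset ℤ).card : ℝ) := by exact_mod_cast h1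
  refine h2.trans (mul_le_mul_of_nonneg_left ?_ (Nat.cast_nonneg _))
  have h3 : ∏ a : Var n, (((if a.1 = b then ({0} : Finset ℤ) else
      ivl (-(2 * Λ a.1)) (2 * Λ a.1)) : Finset ℤ).card : ℝ) ≤
      ∏ a : Var n, (if a.1 = b then 1 else 6 * Λ a.1) := by
    refine Finset.prod_le_prod (fun a _ => Nat.cast_nonneg _) (fun a _ => ?_)
    split_ifs with ha
    · simp
    · refine (card_ivl_le_six (by have := hΛ a.1; linarith)).trans (le_of_eq ?_)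
      ring
  refine h3.trans (le_of_eq ?_)
  rw [Fintype.prod_sigma]
  simp only
  have h4 : ∀ l : Fin r, ∏ _j : Fin (n l + 1), (if l = b then 1 else 6 * Λ l) =
      (if l = b then 1 else (6 * Λ l) ^ (n l + 1)) := by
    intro l
    split_ifs with h
    · simp
    · rw [Finset.prod_const, Finset.card_univ, Fintype.card_fin]
  rw [Finset.prod_congr rfl (fun l _ => h4 l),
    ← Finset.mul_prod_erase Finset.univ _ (Finset.mem_univ b), if_pos rfl, one_mul]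
  refine Finset.prod_congr rfl (fun l hl => ?_)
  rw [if_neg (Finset.ne_of_mem_erase hl)]

open scoped Classical in
/-- vectors with a block divisible by a prime at which the form is small -/
theorem small_primeM {w : ℕ} {fc : MvPolynomial (Var n) ℤ} {S J : ℕ} {xc v : Var n → ℤ}
    (h : PDataM w fc S J xc v) {Λ : Fin r → ℝ} {ξ : Var n → ℝ} {a₀ : Var n}
    {ρ ρ' σ D₀ c₂ Δ Δ₀ τ X₂ : ℝ} {X : Var n → ℝ}
    (hρ : 0 ≤ ρ) (hρ' : 0 ≤ ρ') (hΛ : ∀ i, 0 ≤ Λ i) (hτ : 0 < τ) (hτ1 : τ ≤ 1 / 2) (hD₀ : 0 < D₀)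
    (hσ : |σ| = 1) (hΔ : 0 ≤ Δ) (hΔ₀ : Δ ≤ Δ₀) {g : MvPolynomial (Var n) ℤ}
    (hf : SlopeM σ ((1 - τ) * D₀) c₂ Δ₀ Λ ξ a₀ ρ ρ' (mem' fc S J g))
    (hX : ∀ a, X a = 2 * ρ * Λ a.1 / S) (hX₂ : X₂ = 2 * Δ / (D₀ * S))
    {p : ℕ} (hp : p.Prime) (hpw : w < p)
    (h1 : ∀ a, (p : ℝ) ≤ τ * X a) (h2 : (p : ℝ) ≤ τ * X₂) (i : Fin r) (hn : 1 ≤ n i) :
    ((((boxM Λ ξ a₀ ρ ρ' S xc).filter (fun x => (∀ j, (p : ℤ) ∣ x ⟨i, j⟩) ∧
      |((MvPolynomial.eval x (mem' fc S J g) : ℤ) : ℝ)| ≤ Δ)).card : ℕ) : ℝ) ≤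
      (1 + τ) ^ Fintype.card (Var n) / (1 - τ) * ((∏ a ∈ Finset.univ.erase a₀, X a) * X₂) *
        (1 / (p : ℝ) ^ 2) := by
  set f := mem' fc S J g with hfdef
  have hp0 : (0:ℝ) < p := by exact_mod_cast hp.pos
  have hp1 : (1:ℝ) ≤ p := by exact_mod_cast hp.one_le
  have hpos : ∀ {Y : ℝ}, (p:ℝ) ≤ τ * Y → 0 < Y := by
    intro Y hY
    by_contra hcon
    have : τ * Y ≤ 0 := mul_nonpos_of_nonneg_of_nonpos hτ.le (not_lt.mp hcon)
    linarith
  have hR0 : 0 < (∏ a ∈ Finset.univ.erase a₀, X a) * X₂ :=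
    mul_pos (Finset.prod_pos (fun a _ => hpos (h1 a))) (hpos h2)
  have h1τ : 0 < 1 - τ := by linarith
  obtain ⟨Bd, hBd⟩ : ∃ Bd : ℝ, (1 + τ) ^ Fintype.card (Var n) / (1 - τ) *
    ((∏ a ∈ Finset.univ.erase a₀, X a) * X₂) = Bd := ⟨_, rfl⟩
  have hBd0 : 0 < Bd := by rw [← hBd]; positivity
  set Z : Finset (Var n → ℤ) := Fintype.piFinset (fun a : Var n =>
    if a.1 = i then ({0} : Finset ℤ) else Finset.Ico 0 (p : ℤ)) with hZ
  have hcov : (boxM Λ ξ a₀ ρ ρ' S xc).filter (fun x => (∀ j, (p : ℤ) ∣ x ⟨i, j⟩) ∧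
      |((MvPolynomial.eval x f : ℤ) : ℝ)| ≤ Δ) ⊆
      Z.biUnion (fun ζ => locSetM Λ ξ a₀ ρ ρ' S J xc f 1 p ζ Δ) := by
    intro x hx
    rw [Finset.mem_filter] at hx
    obtain ⟨hxb, hxp, hxf⟩ := hx
    rw [Finset.mem_biUnion]
    refine ⟨fun a => if a.1 = i then 0 else x a % (p : ℤ), ?_, ?_⟩
    · rw [hZ, Fintype.mem_piFinset]
      intro a
      split_ifs with ha
      · simp
      · rw [Finset.mem_Ico]
        exact ⟨Int.emod_nonneg _ (by exact_mod_cast hp.ne_zero),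
          Int.emod_lt_of_pos _ (by exact_mod_cast hp.pos)⟩
    · unfold locSetM
      rw [Finset.mem_filter]
      refine ⟨hxb, fun a => ?_, ?_, hxf⟩
      · change (p : ℤ) ∣ x a - (if a.1 = i then 0 else x a % (p : ℤ))
        split_ifs with ha
        · obtain ⟨l, j⟩ := a
          simp only at ha
          subst ha
          rw [sub_zero]
          exact hxp j
        · exact Int.dvd_self_sub_emod
      · rw [mul_one, hfdef]
        unfold mem'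
        rw [map_add, map_mul, MvPolynomial.eval_C]
        exact dvd_add (h.toP.class_dvd (mem_boxM.mp hxb).2) (dvd_mul_right _ _)
  have h3 : ((((boxM Λ ξ a₀ ρ ρ' S xc).filter (fun x => (∀ j, (p : ℤ) ∣ x ⟨i, j⟩) ∧
      |((MvPolynomial.eval x f : ℤ) : ℝ)| ≤ Δ)).card : ℕ) : ℝ) ≤
      ∑ ζ ∈ Z, ((locSetM Λ ξ a₀ ρ ρ' S J xc f 1 p ζ Δ).card : ℝ) := by
    exact_mod_cast (Finset.card_le_card hcov).trans Finset.card_biUnion_le
  have h4 : ∀ ζ ∈ Z, ((locSetM Λ ξ a₀ ρ ρ' S J xc f 1 p ζ Δ).card : ℝ) ≤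
      Bd / (p : ℝ) ^ Fintype.card (Var n) := by
    intro ζ _
    have h5 := loc_norm_leM h hρ hρ' hΛ hτ hτ1 hD₀ hσ hΔ hΔ₀ hf hX hX₂ (N := 0) (K := 1)
      (by rw [pow_zero]) (D := p) hp.pos (fun q hq hqw hqp => by
        have := (Nat.prime_dvd_prime_iff_eq hq hp).mp hqp
        omega) (fun a => by
        have := h1 a
        push_cast
        rw [one_mul]; exact this) (by push_cast; rw [one_mul]; exact h2) ζ
    rw [hBd] at h5
    simpa using h5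
  refine h3.trans ((Finset.sum_le_sum h4).trans ?_)
  rw [Finset.sum_const, nsmul_eq_mul, hBd]
  have h5 : (Z.card : ℝ) * (p : ℝ) ^ (n i + 1) = (p : ℝ) ^ Fintype.card (Var n) := by
    have h6 : (Z.card : ℝ) = ∏ a : Var n, (if a.1 = i then (1:ℝ) else p) := by
      rw [hZ, Fintype.card_piFinset]
      push_cast
      refine Finset.prod_congr rfl (fun a _ => ?_)
      split_ifs
      · simp
      · simp
    have h7 : (p : ℝ) ^ (n i + 1) = ∏ a : Var n, (if a.1 = i then (p:ℝ) else 1) := by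
      have := prod_block (n := n) (i := i) (fun _ => (1:ℝ)) (p : ℝ)
      simp only [one_mul, one_pow, Finset.prod_const_one] at this
      exact this.symm
    rw [h6, h7, ← Finset.prod_mul_distrib]
    rw [Finset.prod_congr rfl (g := fun _ => (p : ℝ)) (fun a _ => by split_ifs <;> simp)]
    rw [Finset.prod_const, Finset.card_univ]
  have h6 : (Z.card : ℝ) * (Bd / (p : ℝ) ^ Fintype.card (Var n)) = Bd / (p : ℝ) ^ (n i + 1) := by
    rw [← h5]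
    have : (Z.card : ℝ) ≠ 0 := by
      intro h0
      rw [h0, zero_mul] at h5
      have : (0:ℝ) < (p : ℝ) ^ Fintype.card (Var n) := by positivity
      linarith
    field_simp
  rw [h6, div_eq_mul_one_div]
  apply mul_le_mul_of_nonneg_left _ hBd0.le
  apply one_div_le_one_div_of_le (by positivity)
  exact pow_le_pow_right₀ hp1 (by omega)

open scoped Classical in
/-- few vectors of the box with an imprimitive block are such that the form is small -/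
theorem nonprim_countM {w : ℕ} (hw : 1 ≤ w) {fc : MvPolynomial (Var n) ℤ} {S J : ℕ}
    {xc v : Var n → ℤ}
    (h : PDataM w fc S J xc v) {Λ : Fin r → ℝ} {ξ : Var n → ℝ} {a₀ : Var n}
    {ρ ρ' σ D₀ c₂ Δ Δ₀ τ X₂ : ℝ} {X : Var n → ℝ}
    (hρ : 0 ≤ ρ) (hρρ' : ρ ≤ ρ') (hρ'2 : ρ' ≤ 1 / 2) (hΛ : ∀ i, 1 ≤ Λ i)
    (hτ : 0 < τ) (hτ1 : τ ≤ 1 / 2) (hD₀ : 0 < D₀) (hξ : ∀ a, |ξ a| ≤ 1) (hξr : Norm1 ξ)
    (hσ : |σ| = 1) (hΔ : 0 ≤ Δ) (hΔ₀ : Δ ≤ Δ₀) {g : MvPolynomial (Var n) ℤ}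
    (hf : SlopeM σ ((1 - τ) * D₀) c₂ Δ₀ Λ ξ a₀ ρ ρ' (mem' fc S J g))
    (hX : ∀ a, X a = 2 * ρ * Λ a.1 / S) (hX₂ : X₂ = 2 * Δ / (D₀ * S))
    {N : ℕ} (hN : 1 ≤ N) (h1 : ∀ a, (N : ℝ) ≤ τ * X a) (h2 : (N : ℝ) ≤ τ * X₂)
    (i : Fin r) (hn : 1 ≤ n i) :
    ((((boxM Λ ξ a₀ ρ ρ' S xc).filter (fun x => ¬ Prim (bl x i) ∧
      |((MvPolynomial.eval x (mem' fc S J g) : ℤ) : ℝ)| ≤ Δ)).card : ℕ) : ℝ) ≤
      (1 + τ) ^ Fintype.card (Var n) / (1 - τ) * ((∏ a ∈ Finset.univ.erase a₀, X a) * X₂) / w +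
        (∏ l, (6 * Λ l) ^ (n l + 1)) / N := by
  have hΛ0 : ∀ i, 0 < Λ i := fun i => by have := hΛ i; linarith
  set f := mem' fc S J g with hfdef
  obtain ⟨Bd, hBd⟩ : ∃ Bd : ℝ, (1 + τ) ^ Fintype.card (Var n) / (1 - τ) *
    ((∏ a ∈ Finset.univ.erase a₀, X a) * X₂) = Bd := ⟨_, rfl⟩
  have hNr : (1:ℝ) ≤ N := by exact_mod_cast hN
  have hpos : ∀ {Y : ℝ}, (N:ℝ) ≤ τ * Y → 0 < Y := by
    intro Y hY
    by_contra hcon
    have : τ * Y ≤ 0 := mul_nonpos_of_nonneg_of_nonpos hτ.le (not_lt.mp hcon)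
    linarith
  have h1τ : 0 < 1 - τ := by linarith
  have hBd0 : 0 < Bd := by
    rw [← hBd]
    have hR0 : 0 < (∏ a ∈ Finset.univ.erase a₀, X a) * X₂ :=
      mul_pos (Finset.prod_pos (fun a _ => hpos (h1 a))) (hpos h2)
    positivity
  rw [hBd]
  have hsz : ∀ x ∈ boxM Λ ξ a₀ ρ ρ' S xc, Sz (2 * Λ i) (bl x i) := fun x hx =>
    box_sz hΛ0 hρ hρρ' hρ'2 hξ hξr (mem_boxM.mp hx).1 i
  set B' := ⌊2 * Λ i⌋₊ with hB'
  have hcov : (boxM Λ ξ a₀ ρ ρ' S xc).filter (fun x => ¬ Prim (bl x i) ∧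
      |((MvPolynomial.eval x f : ℤ) : ℝ)| ≤ Δ) ⊆
      (((Finset.Ioc w N).filter Nat.Prime).biUnion (fun p => (boxM Λ ξ a₀ ρ ρ' S xc).filter
        (fun x => (∀ j, (p : ℤ) ∣ x ⟨i, j⟩) ∧ |((MvPolynomial.eval x f : ℤ) : ℝ)| ≤ Δ))) ∪
      ((Finset.Ioc N B').biUnion (fun p => (boxM Λ ξ a₀ ρ ρ' S xc).filter
        (fun x => ∀ j, (p : ℤ) ∣ x ⟨i, j⟩))) := by
    intro x hx
    rw [Finset.mem_filter] at hx
    obtain ⟨hxb, hnp, hxf⟩ := hx
    unfold Prim at hnp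
    push Not at hnp
    obtain ⟨D, hD, hDu⟩ := hnp
    have hDn : D.natAbs ≠ 1 := fun h1 => hDu (Int.isUnit_iff_natAbs_eq.mpr h1)
    obtain ⟨p, hp, hpD⟩ := Nat.exists_prime_and_dvd hDn
    have hpx : ∀ j, (p : ℤ) ∣ x ⟨i, j⟩ := fun j =>
      (Int.natCast_dvd.mpr hpD).trans (hD j)
    have hpw : w < p := by
      by_contra hle
      have hle' := not_lt.mp hle
      obtain ⟨j, hj⟩ := h.hprimB p hp hle' i
      apply hj
      have h1 : (p : ℤ) ∣ S := by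
        have := (dvd_mul_right p J).trans (h.toP.hPJ p hp hle')
        exact_mod_cast this
      have h2 := h1.trans ((mem_boxM.mp hxb).2 ⟨i, j⟩)
      have := dvd_sub (hpx j) h2
      simpa using this
    obtain ⟨hx1, j, hj⟩ := hsz x hxb
    have hpB : p ≤ B' := by
      rw [hB']
      apply Nat.le_floor
      have hxr0 : x ⟨i, j⟩ ≠ 0 := by
        intro h0
        unfold bl at hj
        rw [h0] at hj
        simp only [Int.cast_zero, abs_zero] at hj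
        have := hΛ0 i
        linarith
      have h1 : (p : ℤ) ≤ |x ⟨i, j⟩| := by
        have := Int.le_of_dvd (abs_pos.mpr hxr0) ((dvd_abs _ _).mpr (hpx j))
        exact this
      have h2 : (p : ℝ) ≤ |(x ⟨i, j⟩ : ℝ)| := by exact_mod_cast h1
      exact h2.trans (hx1 j)
    rw [Finset.mem_union, Finset.mem_biUnion, Finset.mem_biUnion]
    by_cases hpN : p ≤ N
    · left
      refine ⟨p, ?_, ?_⟩
      · rw [Finset.mem_filter, Finset.mem_Ioc]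
        exact ⟨⟨hpw, hpN⟩, hp⟩
      · rw [Finset.mem_filter]
        exact ⟨hxb, hpx, hxf⟩
    · right
      refine ⟨p, ?_, ?_⟩
      · rw [Finset.mem_Ioc]; exact ⟨not_le.mp hpN, hpB⟩
      · rw [Finset.mem_filter]; exact ⟨hxb, hpx⟩
  have h1' := (Finset.card_le_card hcov).trans (Finset.card_union_le _ _)
  have h2' : ((((boxM Λ ξ a₀ ρ ρ' S xc).filter (fun x => ¬ Prim (bl x i) ∧
      |((MvPolynomial.eval x f : ℤ) : ℝ)| ≤ Δ)).card : ℕ) : ℝ) ≤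
      ((((Finset.Ioc w N).filter Nat.Prime).biUnion (fun p => (boxM Λ ξ a₀ ρ ρ' S xc).filter
        (fun x => (∀ j, (p : ℤ) ∣ x ⟨i, j⟩) ∧
          |((MvPolynomial.eval x f : ℤ) : ℝ)| ≤ Δ))).card : ℝ) +
      (((Finset.Ioc N B').biUnion (fun p => (boxM Λ ξ a₀ ρ ρ' S xc).filter
        (fun x => ∀ j, (p : ℤ) ∣ x ⟨i, j⟩))).card : ℝ) := by exact_mod_cast h1'
  refine h2'.trans (add_le_add ?_ ?_)
  · have h3 : ((((Finset.Ioc w N).filter Nat.Prime).biUnion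
        (fun p => (boxM Λ ξ a₀ ρ ρ' S xc).filter
        (fun x => (∀ j, (p : ℤ) ∣ x ⟨i, j⟩) ∧
          |((MvPolynomial.eval x f : ℤ) : ℝ)| ≤ Δ))).card : ℝ) ≤
        ∑ p ∈ (Finset.Ioc w N).filter Nat.Prime,
          (((boxM Λ ξ a₀ ρ ρ' S xc).filter (fun x => (∀ j, (p : ℤ) ∣ x ⟨i, j⟩) ∧
            |((MvPolynomial.eval x f : ℤ) : ℝ)| ≤ Δ)).card : ℝ) := by
      exact_mod_cast Finset.card_biUnion_le
    refine h3.trans ?_
    have h4 : ∀ p ∈ (Finset.Ioc w N).filter Nat.Prime,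
        (((boxM Λ ξ a₀ ρ ρ' S xc).filter (fun x => (∀ j, (p : ℤ) ∣ x ⟨i, j⟩) ∧
            |((MvPolynomial.eval x f : ℤ) : ℝ)| ≤ Δ)).card : ℝ) ≤ Bd * (1 / (p : ℝ) ^ 2) := by
      intro p hp
      rw [Finset.mem_filter, Finset.mem_Ioc] at hp
      obtain ⟨⟨hp1, hp2⟩, hp3⟩ := hp
      have hpN : (p : ℝ) ≤ N := by exact_mod_cast hp2
      rw [← hBd]
      exact small_primeM h hρ (hρ.trans hρρ') (fun i => (hΛ0 i).le) hτ hτ1 hD₀ hσ hΔ hΔ₀ hf hX hX₂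
        hp3 hp1 (fun a => hpN.trans (h1 a)) (hpN.trans h2) i hn
    refine (Finset.sum_le_sum h4).trans ?_
    rw [← Finset.mul_sum]
    have h5 : ∑ p ∈ (Finset.Ioc w N).filter Nat.Prime, (1 : ℝ) / (p : ℝ) ^ 2 ≤ 1 / w := by
      refine le_trans ?_ (sum_inv_sq w N hw)
      exact Finset.sum_le_sum_of_subset_of_nonneg (Finset.filter_subset _ _)
        (fun _ _ _ => by positivity)
    have := mul_le_mul_of_nonneg_left h5 hBd0.le
    refine this.trans (le_of_eq ?_)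
    ring
  · have h3 : (((Finset.Ioc N B').biUnion (fun p => (boxM Λ ξ a₀ ρ ρ' S xc).filter
        (fun x => ∀ j, (p : ℤ) ∣ x ⟨i, j⟩))).card : ℝ) ≤
        ∑ p ∈ Finset.Ioc N B', (((boxM Λ ξ a₀ ρ ρ' S xc).filter
        (fun x => ∀ j, (p : ℤ) ∣ x ⟨i, j⟩)).card : ℝ) := by
      exact_mod_cast Finset.card_biUnion_le
    refine h3.trans ?_
    have hPr : 0 ≤ ∏ l, (6 * Λ l) ^ (n l + 1) :=
      Finset.prod_nonneg (fun l _ => by have := hΛ0 l; positivity)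
    have h4 : ∀ p ∈ Finset.Ioc N B', (((boxM Λ ξ a₀ ρ ρ' S xc).filter
        (fun x => ∀ j, (p : ℤ) ∣ x ⟨i, j⟩)).card : ℝ) ≤
        (∏ l, (6 * Λ l) ^ (n l + 1)) * (1 / (p : ℝ) ^ 2) := by
      intro p hp
      rw [Finset.mem_Ioc] at hp
      have hp0 : 0 < p := by omega
      have hp1 : (1:ℝ) ≤ p := by exact_mod_cast hp0
      have hpB : (p : ℝ) ≤ 2 * Λ i := by
        have h5 : (p : ℝ) ≤ B' := by exact_mod_cast hp.2
        exact h5.trans (Nat.floor_le (by have := hΛ0 i; positivity))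
      have := div_blockM hΛ i p hp0 hpB ((boxM Λ ξ a₀ ρ ρ' S xc).filter
        (fun x => ∀ j, (p : ℤ) ∣ x ⟨i, j⟩)) (fun x hx => by
          rw [Finset.mem_filter] at hx
          exact ⟨fun a => box_abs hΛ0 hρ hρρ' hρ'2 hξ (mem_boxM.mp hx.1).1 a, hx.2⟩)
      refine this.trans ?_
      apply mul_le_mul_of_nonneg_left _ hPr
      rw [div_pow, one_pow]
      apply one_div_le_one_div_of_le (by positivity)
      exact pow_le_pow_right₀ hp1 (by omega)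
    refine (Finset.sum_le_sum h4).trans ?_
    rw [← Finset.mul_sum]
    have := mul_le_mul_of_nonneg_left (sum_inv_sq N B' hN) hPr
    refine this.trans (le_of_eq ?_)
    ring

open scoped Classical in
theorem test_lowerM {w : ℕ} (hw : 1 ≤ w) {fc : MvPolynomial (Var n) ℤ} {S J : ℕ} {xc v : Var n → ℤ}
    (h : PDataM w fc S J xc v) {Λ : Fin r → ℝ} {ξ : Var n → ℝ} {a₀ : Var n} {b : Fin r}
    {ρ ρ' σ D₀ Δ Δ₀ τ X₂ a : ℝ} {X : Var n → ℝ}
    (hρ : 0 ≤ ρ) (hρρ' : ρ ≤ ρ') (hρ'2 : ρ' ≤ 1 / 2) (hΛ : ∀ i, 1 ≤ Λ i) (hn : ∀ i, 1 ≤ n i)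
    (hτ : 0 < τ) (hτ1 : τ ≤ 1 / 2)
    (hD₀ : 0 < D₀) (hwτ : (r : ℝ) / (w : ℝ) ≤ τ) (hξ : ∀ a, |ξ a| ≤ 1) (hξr : Norm1 ξ)
    (hσ : |σ| = 1) (hΔ : 0 ≤ Δ) (hΔ₀ : Δ ≤ Δ₀) {g : MvPolynomial (Var n) ℤ}
    (hf : SlopeM σ ((1 - τ) * D₀) ((1 + τ) * D₀) Δ₀ Λ ξ a₀ ρ ρ' (mem' fc S J g))
    (hX : ∀ a, X a = 2 * ρ * Λ a.1 / S) (hX₂ : X₂ = 2 * Δ / (D₀ * S))
    {N : ℕ} (hN : 1 ≤ N) (h1 : ∀ a, N ≤ τ * X a) (h2 : 2 * N ≤ τ * X₂)
    (h3 : r * (∏ i, (6 * Λ i) ^ (n i + 1)) / N ≤ τ * ((∏ a ∈ Finset.univ.erase a₀, X a) * X₂))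
    (h4 : ∀ U : Finset (Fin (n b + 1) → ℤ),
      (∀ x ∈ U, Sz (2 * Λ b) x ∧ Prim x ∧ ¬ Bal (2 * Λ b) a x) →
      (U.card : ℝ) * ∏ i ∈ Finset.univ.erase b, (6 * Λ i) ^ (n i + 1) ≤
        τ * ((∏ a ∈ Finset.univ.erase a₀, X a) * X₂)) :
    bfun (Fintype.card (Var n)) τ * ((∏ a ∈ Finset.univ.erase a₀, X a) * X₂) ≤
      (((testM b a Λ ξ a₀ ρ ρ' S xc).filter (fun x =>
        |((MvPolynomial.eval x (mem' fc S J g) : ℤ) : ℝ)| ≤ Δ)).card : ℝ) := by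
  have hΛ0 : ∀ i, 0 < Λ i := fun i => by have := hΛ i; linarith
  set f := mem' fc S J g with hfdef
  have hS0 : (0:ℝ) < S := by exact_mod_cast h.toP.hS
  have hNr : (1:ℝ) ≤ N := by exact_mod_cast hN
  have hc₁ : 0 < (1 - τ) * D₀ := by apply mul_pos _ hD₀; linarith
  have hpos : ∀ {Y : ℝ}, (N:ℝ) ≤ τ * Y → 0 < Y := by
    intro Y hY
    by_contra hcon
    have : τ * Y ≤ 0 := mul_nonpos_of_nonneg_of_nonpos hτ.le (not_lt.mp hcon)
    linarith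
  have hX₁0 : ∀ a, 0 < X a := fun a => hpos (h1 a)
  have hX₂0 : 0 < X₂ := hpos (by linarith)
  obtain ⟨R, hR⟩ : ∃ R : ℝ, (∏ a ∈ Finset.univ.erase a₀, X a) * X₂ = R := ⟨_, rfl⟩
  have hR0 : 0 < R := by
    rw [← hR]; exact mul_pos (Finset.prod_pos (fun a _ => hX₁0 a)) hX₂0
  have h1τ : 0 < 1 - τ := by linarith
  -- slab
  have hslab : (1 - τ) ^ Fintype.card (Var n) / (1 + τ) * R ≤
      (((boxM Λ ξ a₀ ρ ρ' S xc).filter (fun x =>
        |((MvPolynomial.eval x f : ℤ) : ℝ)| ≤ Δ)).card : ℝ) := by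
    have hSρ : ∀ a : Var n, (S : ℝ) ≤ 2 * ρ * Λ a.1 := by
      intro a
      have h5 : 1 ≤ X a := by
        have h6 : (1:ℝ) ≤ τ * X a := hNr.trans (h1 a)
        have := hX₁0 a
        nlinarith
      rw [hX a, le_div_iff₀ hS0] at h5
      linarith
    have key := slab_class_geM (f := f) hρ hρρ' (fun i => (hΛ0 i).le) hσ hc₁ hΔ hΔ₀ hf (M := S)
      h.toP.hS hSρ xc
      ((boxM Λ ξ a₀ ρ ρ' S xc).filter (fun x => |((MvPolynomial.eval x f : ℤ) : ℝ)| ≤ Δ))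
      (fun x hx1 hx2 hx3 => by
        rw [Finset.mem_filter, mem_boxM]
        exact ⟨⟨hx2, hx1⟩, hx3⟩)
    refine le_trans ?_ key
    have e1 : ∀ a : Var n, 2 * ρ * Λ a.1 / S - 1 = X a / (1 : ℕ) - 1 := by
      intro a
      rw [hX]; push_cast; ring
    have e2 : 2 * Δ / ((1 + τ) * D₀ * S) = X₂ / ((1 + τ) * (1 : ℕ)) := by
      rw [hX₂]; push_cast; field_simp
    rw [Finset.prod_congr rfl (fun a _ => e1 a), e2]
    have key2 := num_lowerM a₀ (M := 1) (X := X) (X₂ := X₂) (τ := τ)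
      (θ := τ) le_rfl (by linarith) hτ.le hτ (by linarith)
      (fun a => by have := h1 a; push_cast; linarith) (by push_cast; linarith)
    rw [hR] at key2
    simp only [Nat.cast_one, one_pow, div_one] at key2 ⊢
    exact key2
  -- imprimitive
  have hnp : ∀ i : Fin r, ((((boxM Λ ξ a₀ ρ ρ' S xc).filter (fun x => ¬ Prim (bl x i) ∧
      |((MvPolynomial.eval x f : ℤ) : ℝ)| ≤ Δ)).card : ℕ) : ℝ) ≤
      (1 + τ) ^ Fintype.card (Var n) / (1 - τ) * R / w + (∏ l, (6 * Λ l) ^ (n l + 1)) / N := by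
    intro i
    have := nonprim_countM hw h hρ hρρ' hρ'2 hΛ hτ hτ1 hD₀ hξ hξr hσ hΔ hΔ₀ hf hX hX₂ hN h1
      (by linarith) i (hn i)
    rw [hR] at this
    exact this
  -- unbalanced
  have hub : (((boxM Λ ξ a₀ ρ ρ' S xc).filter (fun x => Prim (bl x b) ∧
      ¬ Bal (2 * Λ b) a (bl x b))).card : ℝ) ≤ τ * R := by
    have h5 := unbal_blockM hΛ b ((boxM Λ ξ a₀ ρ ρ' S xc).filter (fun x => Prim (bl x b) ∧
      ¬ Bal (2 * Λ b) a (bl x b))) (((boxM Λ ξ a₀ ρ ρ' S xc).filter (fun x => Prim (bl x b) ∧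
      ¬ Bal (2 * Λ b) a (bl x b))).image (fun x => bl x b))
      (fun x hx => Finset.mem_image_of_mem _ hx)
      (fun x hx a => by
        rw [Finset.mem_filter] at hx
        exact box_abs hΛ0 hρ hρρ' hρ'2 hξ (mem_boxM.mp hx.1).1 a)
    refine h5.trans ?_
    rw [← hR]
    apply h4
    intro u hu
    rw [Finset.mem_image] at hu
    obtain ⟨x, hx, rfl⟩ := hu
    rw [Finset.mem_filter] at hx
    exact ⟨box_sz hΛ0 hρ hρρ' hρ'2 hξ hξr (mem_boxM.mp hx.1).1 b, hx.2.1, hx.2.2⟩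
  have hcov : (boxM Λ ξ a₀ ρ ρ' S xc).filter (fun x => |((MvPolynomial.eval x f : ℤ) : ℝ)| ≤ Δ) ⊆
      ((testM b a Λ ξ a₀ ρ ρ' S xc).filter (fun x =>
        |((MvPolynomial.eval x f : ℤ) : ℝ)| ≤ Δ)) ∪
      ((Finset.univ : Finset (Fin r)).biUnion (fun i => (boxM Λ ξ a₀ ρ ρ' S xc).filter (fun x =>
        ¬ Prim (bl x i) ∧ |((MvPolynomial.eval x f : ℤ) : ℝ)| ≤ Δ))) ∪
      ((boxM Λ ξ a₀ ρ ρ' S xc).filter (fun x => Prim (bl x b) ∧ ¬ Bal (2 * Λ b) a (bl x b))) := by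
    intro x hx
    rw [Finset.mem_filter] at hx
    rw [Finset.mem_union, Finset.mem_union, Finset.mem_filter, Finset.mem_biUnion,
      Finset.mem_filter, mem_testM]
    have hsz := fun i => box_sz hΛ0 hρ hρρ' hρ'2 hξ hξr (mem_boxM.mp hx.1).1 i
    by_cases hp : ∀ i, Prim (bl x i)
    · by_cases hb : Bal (2 * Λ b) a (bl x b)
      · left; left; exact ⟨⟨hx.1, hsz, hp, hb⟩, hx.2⟩
      · right; exact ⟨hx.1, hp b, hb⟩
    · push Not at hp
      obtain ⟨i, hi⟩ := hp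
      left; right
      exact ⟨i, Finset.mem_univ i, by rw [Finset.mem_filter]; exact ⟨hx.1, hi, hx.2⟩⟩
  have hc := (Finset.card_le_card hcov).trans ((Finset.card_union_le _ _).trans
    (Nat.add_le_add_right (Finset.card_union_le _ _) _))
  have hc' : (((boxM Λ ξ a₀ ρ ρ' S xc).filter (fun x =>
        |((MvPolynomial.eval x f : ℤ) : ℝ)| ≤ Δ)).card : ℝ) ≤
      (((testM b a Λ ξ a₀ ρ ρ' S xc).filter (fun x =>
        |((MvPolynomial.eval x f : ℤ) : ℝ)| ≤ Δ)).card : ℝ) +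
      ((((Finset.univ : Finset (Fin r)).biUnion (fun i => (boxM Λ ξ a₀ ρ ρ' S xc).filter (fun x =>
        ¬ Prim (bl x i) ∧ |((MvPolynomial.eval x f : ℤ) : ℝ)| ≤ Δ))).card : ℕ) : ℝ) +
      (((boxM Λ ξ a₀ ρ ρ' S xc).filter (fun x => Prim (bl x b) ∧
        ¬ Bal (2 * Λ b) a (bl x b))).card : ℝ) := by
    exact_mod_cast hc
  have hbi : ((((Finset.univ : Finset (Fin r)).biUnion (fun i =>
      (boxM Λ ξ a₀ ρ ρ' S xc).filter (fun x =>
        ¬ Prim (bl x i) ∧ |((MvPolynomial.eval x f : ℤ) : ℝ)| ≤ Δ))).card : ℕ) : ℝ) ≤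
      r * ((1 + τ) ^ Fintype.card (Var n) / (1 - τ) * R / w +
        (∏ l, (6 * Λ l) ^ (n l + 1)) / N) := by
    have h5 : ((((Finset.univ : Finset (Fin r)).biUnion (fun i =>
      (boxM Λ ξ a₀ ρ ρ' S xc).filter (fun x =>
        ¬ Prim (bl x i) ∧ |((MvPolynomial.eval x f : ℤ) : ℝ)| ≤ Δ))).card : ℕ) : ℝ) ≤
        ∑ i : Fin r, (((boxM Λ ξ a₀ ρ ρ' S xc).filter (fun x =>
        ¬ Prim (bl x i) ∧ |((MvPolynomial.eval x f : ℤ) : ℝ)| ≤ Δ)).card : ℝ) := by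
      exact_mod_cast Finset.card_biUnion_le
    refine h5.trans ((Finset.sum_le_sum (fun i _ => hnp i)).trans ?_)
    rw [Finset.sum_const, Finset.card_univ, Fintype.card_fin, nsmul_eq_mul]
  have h6 : (r : ℝ) * ((1 + τ) ^ Fintype.card (Var n) / (1 - τ) * R / w) ≤
      (1 + τ) ^ Fintype.card (Var n) / (1 - τ) * R * τ := by
    have e : (r : ℝ) * ((1 + τ) ^ Fintype.card (Var n) / (1 - τ) * R / w) =
        (1 + τ) ^ Fintype.card (Var n) / (1 - τ) * R * (r / w) := by ring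
    rw [e]
    exact mul_le_mul_of_nonneg_left hwτ (by positivity)
  have h7 : bfun (Fintype.card (Var n)) τ * R = (1 - τ) ^ Fintype.card (Var n) / (1 + τ) * R -
      (1 + τ) ^ Fintype.card (Var n) / (1 - τ) * R * τ - 2 * (τ * R) := by
    unfold bfun; ring
  rw [hR] at h3 ⊢
  rw [h7]
  have h8 : (r : ℝ) * ((∏ l, (6 * Λ l) ^ (n l + 1)) / N) ≤ τ * R := by
    rw [← mul_div_assoc]; exact h3
  rw [mul_add] at hbi
  linarith

end Pool.Agent.Y804.MC
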