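import Pool.Agent.Y716.M.Data
import Pool.Agent.Y716.Q.Parts

/-!
# Counting locally small test vectors in boxes with several scales
-/

namespace Pool.Agent.Y804.MC

open Pool.Agent.Y716.Q Pool.Agent.Y716.M

variable {r : ℕ} {n : Fin r → ℕ}

theorem prod_wdM (Λ : Fin r → ℝ) (ξ : Var n → ℝ) (a₀ : Var n) (ρ ρ' M c : ℝ) :
    (∏ a ∈ Finset.univ.erase a₀,
      ((Λ a.1 * (ξ a + wd a₀ ρ ρ' a) - Λ a.1 * (ξ a - wd a₀ ρ ρ' a)) / M + c)) =
      ∏ a ∈ Finset.univ.erase a₀, (2 * ρ * Λ a.1 / M + c) := by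
  refine Finset.prod_congr rfl (fun a ha => ?_)
  have hne : a ≠ a₀ := Finset.ne_of_mem_erase ha
  have h1 : wd a₀ ρ ρ' a = ρ := by
    unfold wd
    rw [if_neg hne]
  rw [h1]
  congr 2
  ring

open scoped Classical in
/-- count in one residue class, upper bound -/
theorem slab_class_leM {Λ : Fin r → ℝ} {ξ : Var n → ℝ} {a₀ : Var n} {ρ ρ' σ c₁ c₂ Δ Δ₀ : ℝ}
    (hρ : 0 ≤ ρ) (hρ' : 0 ≤ ρ') (hΛ : ∀ i, 0 ≤ Λ i)
    (hσ : |σ| = 1) (hc₁ : 0 < c₁) (hΔ : 0 ≤ Δ) (hΔ₀ : Δ ≤ Δ₀) {f : MvPolynomial (Var n) ℤ}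
    (hf : SlopeM σ c₁ c₂ Δ₀ Λ ξ a₀ ρ ρ' f) {M : ℕ} (hM : 1 ≤ M) (c : Var n → ℤ)
    (X : Finset (Var n → ℤ)) (hX : ∀ x ∈ X, (∀ a, (M : ℤ) ∣ x a - c a) ∧
      InBoxM Λ ξ a₀ ρ ρ' (fun a => (x a : ℝ)) ∧ |((MvPolynomial.eval x f : ℤ) : ℝ)| ≤ Δ) :
    (X.card : ℝ) ≤ (∏ a ∈ Finset.univ.erase a₀, (2 * ρ * Λ a.1 / M + 1)) *
      (2 * Δ / (c₁ * M) + 1) := by
  have hwd0 : ∀ i, 0 ≤ wd a₀ ρ ρ' i := by
    intro i; unfold wd; split_ifs <;> assumption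
  have hwi : wd a₀ ρ ρ' a₀ = ρ' := by unfold wd; rw [if_pos rfl]
  set Y := (Fintype.piFinset (fun a : Var n => ivl (Λ a.1 * (ξ a - wd a₀ ρ ρ' a))
    (Λ a.1 * (ξ a + wd a₀ ρ ρ' a)))).filter (fun x => (∀ a, (M : ℤ) ∣ x a - c a) ∧
      |σ * MvPolynomial.aeval (fun a => ((x a : ℤ) : ℝ)) f| ≤ Δ) with hY
  have hYmem : ∀ x, x ∈ Y ↔ (∀ a, (M : ℤ) ∣ x a - c a) ∧
      (∀ a, Λ a.1 * (ξ a - wd a₀ ρ ρ' a) ≤ x a ∧ (x a : ℝ) ≤ Λ a.1 * (ξ a + wd a₀ ρ ρ' a)) ∧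
      |σ * MvPolynomial.aeval (fun a => ((x a : ℤ) : ℝ)) f| ≤ Δ := by
    intro x
    rw [hY, Finset.mem_filter, Fintype.mem_piFinset]
    simp only [mem_ivl]
    tauto
  have key := box_count_real a₀ (fun x => σ * MvPolynomial.aeval x f)
    (fun a => Λ a.1 * (ξ a - wd a₀ ρ ρ' a)) (fun a => Λ a.1 * (ξ a + wd a₀ ρ ρ' a)) M hM
    (fun i => by have := hwd0 i; apply mul_le_mul_of_nonneg_left _ (hΛ _); linarith) c Δ c₁ c₂ hΔ
    hc₁
    (fun x hx s t hs hst ht => by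
      rw [hwi] at hs ht
      exact (hf x hx).1 s t hs hst ht)
    (fun x hx => by
      rw [hwi]
      have := (hf x hx).2
      exact ⟨this.1.trans (by linarith), hΔ₀.trans this.2⟩) Y hYmem
  have h1 := key.1
  rw [prod_wdM] at h1
  refine le_trans ?_ h1
  have hsub : X ⊆ Y := by
    intro x hx
    rw [hYmem]
    obtain ⟨h1, h2, h3⟩ := hX x hx
    refine ⟨h1, h2, ?_⟩
    rw [aeval_int_cast, abs_mul, hσ, one_mul]
    exact h3
  exact_mod_cast Finset.card_le_card hsub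

open scoped Classical in
/-- count in one residue class, lower bound -/
theorem slab_class_geM {Λ : Fin r → ℝ} {ξ : Var n → ℝ} {a₀ : Var n} {ρ ρ' σ c₁ c₂ Δ Δ₀ : ℝ}
    (hρ : 0 ≤ ρ) (hρρ' : ρ ≤ ρ') (hΛ : ∀ i, 0 ≤ Λ i)
    (hσ : |σ| = 1) (hc₁ : 0 < c₁) (hΔ : 0 ≤ Δ) (hΔ₀ : Δ ≤ Δ₀) {f : MvPolynomial (Var n) ℤ}
    (hf : SlopeM σ c₁ c₂ Δ₀ Λ ξ a₀ ρ ρ' f) {M : ℕ} (hM : 1 ≤ M)
    (hMρ : ∀ a : Var n, (M : ℝ) ≤ 2 * ρ * Λ a.1)
    (c : Var n → ℤ) (X : Finset (Var n → ℤ)) (hX : ∀ x : Var n → ℤ, (∀ a, (M : ℤ) ∣ x a - c a) →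
      InBoxM Λ ξ a₀ ρ ρ' (fun a => (x a : ℝ)) → |((MvPolynomial.eval x f : ℤ) : ℝ)| ≤ Δ → x ∈ X) :
    (∏ a ∈ Finset.univ.erase a₀, (2 * ρ * Λ a.1 / M - 1)) * (2 * Δ / (c₂ * M) - 1) ≤
      (X.card : ℝ) := by
  have hρ' : 0 ≤ ρ' := hρ.trans hρρ'
  have hwd0 : ∀ i, 0 ≤ wd a₀ ρ ρ' i := by
    intro i; unfold wd; split_ifs <;> assumption
  have hwdρ : ∀ i, ρ ≤ wd a₀ ρ ρ' i := by
    intro i; unfold wd; split_ifs
    · exact hρρ'
    · exact le_rfl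
  have hwi : wd a₀ ρ ρ' a₀ = ρ' := by unfold wd; rw [if_pos rfl]
  set Y := (Fintype.piFinset (fun a : Var n => ivl (Λ a.1 * (ξ a - wd a₀ ρ ρ' a))
    (Λ a.1 * (ξ a + wd a₀ ρ ρ' a)))).filter (fun x => (∀ a, (M : ℤ) ∣ x a - c a) ∧
      |σ * MvPolynomial.aeval (fun a => ((x a : ℤ) : ℝ)) f| ≤ Δ) with hY
  have hYmem : ∀ x, x ∈ Y ↔ (∀ a, (M : ℤ) ∣ x a - c a) ∧
      (∀ a, Λ a.1 * (ξ a - wd a₀ ρ ρ' a) ≤ x a ∧ (x a : ℝ) ≤ Λ a.1 * (ξ a + wd a₀ ρ ρ' a)) ∧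
      |σ * MvPolynomial.aeval (fun a => ((x a : ℤ) : ℝ)) f| ≤ Δ := by
    intro x
    rw [hY, Finset.mem_filter, Fintype.mem_piFinset]
    simp only [mem_ivl]
    tauto
  have key := box_count_real a₀ (fun x => σ * MvPolynomial.aeval x f)
    (fun a => Λ a.1 * (ξ a - wd a₀ ρ ρ' a)) (fun a => Λ a.1 * (ξ a + wd a₀ ρ ρ' a)) M hM
    (fun i => by have := hwd0 i; apply mul_le_mul_of_nonneg_left _ (hΛ _); linarith) c Δ c₁ c₂ hΔ
    hc₁
    (fun x hx s t hs hst ht => by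
      rw [hwi] at hs ht
      exact (hf x hx).1 s t hs hst ht)
    (fun x hx => by
      rw [hwi]
      have := (hf x hx).2
      exact ⟨this.1.trans (by linarith), hΔ₀.trans this.2⟩) Y hYmem
  have h1 := key.2 (fun a => by
    have := mul_le_mul_of_nonneg_left (hwdρ a) (hΛ a.1)
    have h2 := hMρ a
    linarith)
  have h2 := prod_wdM Λ ξ a₀ ρ ρ' M (-1)
  simp only [← sub_eq_add_neg] at h2
  rw [h2] at h1
  refine h1.trans ?_
  have hsub : Y ⊆ X := by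
    intro x hx
    rw [hYmem] at hx
    obtain ⟨h1, h2, h3⟩ := hx
    rw [aeval_int_cast, abs_mul, hσ, one_mul] at h3
    exact hX x h1 h2 h3
  exact_mod_cast Finset.card_le_card hsub

open scoped Classical in
/-- The upper bound for the number of locally small test vectors. -/
theorem locSetM_card_le {w : ℕ} {fc : MvPolynomial (Var n) ℤ} {S J : ℕ} {xc v : Var n → ℤ}
    (h : PData w fc S J xc v) {Λ : Fin r → ℝ} {ξ : Var n → ℝ} {a₀ : Var n}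
    {ρ ρ' σ c₁ c₂ Δ Δ₀ : ℝ} (hρ : 0 ≤ ρ)
    (hρ' : 0 ≤ ρ') (hΛ : ∀ i, 0 ≤ Λ i)
    (hσ : |σ| = 1) (hc₁ : 0 < c₁) (hΔ : 0 ≤ Δ) (hΔ₀ : Δ ≤ Δ₀) {g : MvPolynomial (Var n) ℤ}
    (hf : SlopeM σ c₁ c₂ Δ₀ Λ ξ a₀ ρ ρ' (mem' fc S J g)) (L : List ℕ)
    (hL : ∀ p ∈ L, p.Prime ∧ p ≤ w) {D : ℕ} (hD : 0 < D) (hcop : Nat.Coprime (S * L.prod) D)
    (ζ : Var n → ℤ) :
    ((locSetM Λ ξ a₀ ρ ρ' S J xc (mem' fc S J g) L.prod D ζ Δ).card : ℝ) ≤
      (L.prod : ℝ) ^ (Fintype.card (Var n) - 1) *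
      ((∏ a ∈ Finset.univ.erase a₀, (2 * ρ * Λ a.1 / (S * L.prod * D : ℕ) + 1)) *
        (2 * Δ / (c₁ * (S * L.prod * D : ℕ)) + 1)) := by
  set f := mem' fc S J g with hfdef
  set K := L.prod with hK
  have hK0 : 0 < K := by
    rw [hK]
    apply List.prod_pos
    intro p hp
    exact (hL p hp).1.pos
  have hSK : (0 : ℤ) < ((S * K : ℕ) : ℤ) := by
    have := Nat.mul_pos h.hS hK0
    exact_mod_cast this
  set T := locSetM Λ ξ a₀ ρ ρ' S J xc f K D ζ Δ with hT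
  have hTmem : ∀ x ∈ T, InBoxM Λ ξ a₀ ρ ρ' (fun a => (x a : ℝ)) ∧ (∀ a, (S : ℤ) ∣ x a - xc a) ∧
      (∀ a, (D : ℤ) ∣ x a - ζ a) ∧ ((S * J * K : ℕ) : ℤ) ∣ MvPolynomial.eval x f ∧
      |((MvPolynomial.eval x f : ℤ) : ℝ)| ≤ Δ := by
    intro x hx
    rw [hT] at hx
    unfold locSetM at hx
    rw [Finset.mem_filter, mem_boxM] at hx
    exact ⟨hx.1.1, hx.1.2, hx.2.1, hx.2.2.1, hx.2.2.2⟩
  -- residue map
  set φ : (Var n → ℤ) → (Var n → ℤ) := fun x a => x a % ((S * K : ℕ) : ℤ) with hφ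
  have hφeq : ∀ x y : Var n → ℤ, φ x = φ y ↔ ∀ a, ((S * K : ℕ) : ℤ) ∣ x a - y a := by
    intro x y
    constructor
    · intro h1 i
      have h2 : x i ≡ y i [ZMOD ((S * K : ℕ) : ℤ)] := congrFun h1 i
      exact (Int.ModEq.symm h2).dvd
    · intro h1
      funext i
      exact (Int.ModEq.symm ((Int.modEq_iff_dvd).mpr (h1 i)))
  -- number of classes
  have hcls : (T.image φ).card ≤ K ^ (Fintype.card (Var n) - 1) := by
    have hsec : ∀ c ∈ T.image φ, ∃ x ∈ T, φ x = c := by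
      intro c hc
      exact Finset.mem_image.mp hc
    choose! s hs1 hs2 using hsec
    have hcard : ((T.image φ).image s).card = (T.image φ).card := by
      apply Finset.card_image_of_injOn
      intro c hc c' hc' heq
      have e1 := hs2 c hc
      have e2 := hs2 c' hc'
      rw [← e1, ← e2, heq]
    rw [← hcard]
    obtain ⟨hd1, hd2⟩ := h.mem g
    have hdv : ∀ p : ℕ, p.Prime → p ≤ w → ∃ i, ¬ (p : ℤ) ∣
        (v i + S * MvPolynomial.eval xc (MvPolynomial.pderiv i g)) := by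
      intro p hp hpw
      obtain ⟨i, hi⟩ := h.hv p hp hpw
      refine ⟨i, fun hd => hi ?_⟩
      have h1 : (p : ℤ) ∣ S := by
        have := (dvd_mul_right p J).trans (h.hPJ p hp hpw)
        exact_mod_cast this
      have := dvd_sub hd (Dvd.dvd.mul_right h1 (MvPolynomial.eval xc (MvPolynomial.pderiv i g)))
      simpa using this
    apply Pool.Agent.Y67.HP.residue_count f (S : ℤ) (J : ℤ) (by exact_mod_cast h.hS.ne')
      (by exact_mod_cast h.hJ.ne') xc _ (by exact_mod_cast h.hJS) hd1 hd2 L (fun p hp => by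
        obtain ⟨h1, h2⟩ := hL p hp
        exact ⟨h1, by exact_mod_cast h.hPJ p h1 h2, hdv p h1 h2⟩) ((T.image φ).image s)
    · intro x hx
      obtain ⟨c, hc, rfl⟩ := Finset.mem_image.mp hx
      obtain ⟨h1, h2, h3, h4, h5⟩ := hTmem _ (hs1 c hc)
      refine ⟨h2, ?_⟩
      rw [← hK]
      rw [Nat.cast_mul, Nat.cast_mul] at h4
      exact h4
    · intro x hx y hy hxy
      obtain ⟨c, hc, rfl⟩ := Finset.mem_image.mp hx
      obtain ⟨c', hc', rfl⟩ := Finset.mem_image.mp hy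
      have : φ (s c) = φ (s c') := by
        rw [hφeq]
        intro i
        rw [Nat.cast_mul]
        exact hxy i
      rw [hs2 c hc, hs2 c' hc'] at this
      rw [this]
  -- each class
  set N : ℝ := (∏ a ∈ Finset.univ.erase a₀, (2 * ρ * Λ a.1 / (S * K * D : ℕ) + 1)) *
        (2 * Δ / (c₁ * (S * K * D : ℕ)) + 1) with hN
  have hN0 : 0 ≤ N := by
    rw [hN]
    apply mul_nonneg
    · apply Finset.prod_nonneg
      intro a _
      have := hΛ a.1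
      positivity
    · positivity
  have hfib : ∀ c ∈ T.image φ, ((T.filter (fun x => φ x = c)).card : ℝ) ≤ N := by
    intro c hc
    obtain ⟨x₀, hx₀, hx₀c⟩ := Finset.mem_image.mp hc
    refine (slab_class_leM hρ hρ' hΛ hσ hc₁ hΔ hΔ₀ hf (M := S * K * D)
      (Nat.mul_pos (Nat.mul_pos h.hS hK0) hD) x₀ _ ?_)
    intro x hx
    rw [Finset.mem_filter] at hx
    obtain ⟨h1, h2, h3, h4, h5⟩ := hTmem x hx.1
    obtain ⟨g1, g2, g3, g4, g5⟩ := hTmem x₀ hx₀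
    refine ⟨fun i => ?_, h1, h5⟩
    have e1 : ((S * K : ℕ) : ℤ) ∣ x i - x₀ i := by
      have : φ x = φ x₀ := by rw [hx.2, hx₀c]
      exact (hφeq _ _).mp this i
    have e2 : (D : ℤ) ∣ x i - x₀ i := by
      have := dvd_sub (h3 i) (g3 i)
      simpa using this
    have e3 : IsCoprime ((S * K : ℕ) : ℤ) (D : ℤ) := Nat.isCoprime_iff_coprime.mpr hcop
    have := e3.mul_dvd e1 e2
    exact_mod_cast this
  have hsum : (T.card : ℝ) = ∑ c ∈ T.image φ, ((T.filter (fun x => φ x = c)).card : ℝ) := by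
    rw [Finset.card_eq_sum_card_image φ T]
    push_cast
    rfl
  rw [hsum]
  refine (Finset.sum_le_sum hfib).trans ?_
  rw [Finset.sum_const, nsmul_eq_mul]
  apply mul_le_mul_of_nonneg_right _ hN0
  exact_mod_cast hcls

/-- numerical upper bound, several scales -/
theorem num_upperM {ι : Type*} [Fintype ι] [DecidableEq ι] (a₀ : ι) {M : ℕ} {X : ι → ℝ}
    {X₂ τ θ : ℝ} (hM : 1 ≤ M) (hθ1 : θ < 1)
    (hθ : 0 ≤ θ) (hτ : 0 < τ) (hX₁ : ∀ a, M ≤ τ * X a) (hX₂ : M ≤ τ * X₂) :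
    (∏ a ∈ Finset.univ.erase a₀, (X a / M + 1)) * (X₂ / ((1 - θ) * M) + 1) ≤
      (1 + τ) ^ Fintype.card ι / (1 - θ) * ((∏ a ∈ Finset.univ.erase a₀, X a) * X₂) /
        (M : ℝ) ^ Fintype.card ι := by
  have hM0 : (0:ℝ) < M := by exact_mod_cast hM
  have h1 : 0 < 1 - θ := by linarith
  have hpos : ∀ {Y : ℝ}, M ≤ τ * Y → 0 < Y := by
    intro Y hY
    by_contra hcon
    have : τ * Y ≤ 0 := mul_nonpos_of_nonneg_of_nonpos hτ.le (not_lt.mp hcon)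
    linarith
  have hX₁0 : ∀ a, 0 < X a := fun a => hpos (hX₁ a)
  have hX₂0 : 0 < X₂ := hpos hX₂
  have e1 : ∀ a, X a / M + 1 ≤ (1 + τ) * (X a / M) := by
    intro a
    have : 1 ≤ τ * (X a / M) := by
      rw [← mul_div_assoc, le_div_iff₀ hM0]; linarith [hX₁ a]
    linarith
  have e2 : X₂ / ((1 - θ) * M) + 1 ≤ (1 + τ) * (X₂ / ((1 - θ) * M)) := by
    have : 1 ≤ τ * (X₂ / ((1 - θ) * M)) := by
      rw [← mul_div_assoc, le_div_iff₀ (by positivity)]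
      nlinarith
    linarith
  have e3 : (∏ a ∈ Finset.univ.erase a₀, (X a / M + 1)) ≤
      ∏ a ∈ Finset.univ.erase a₀, ((1 + τ) * (X a / M)) :=
    Finset.prod_le_prod (fun a _ => by have := hX₁0 a; positivity) (fun a _ => e1 a)
  have e4 : ∏ a ∈ Finset.univ.erase a₀, ((1 + τ) * (X a / M)) =
      (1 + τ) ^ (Fintype.card ι - 1) * ((∏ a ∈ Finset.univ.erase a₀, X a) /
        (M : ℝ) ^ (Fintype.card ι - 1)) := by
    rw [Finset.prod_mul_distrib, Finset.prod_const, Finset.prod_div_distrib, Finset.prod_const,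
      Finset.card_erase_of_mem (Finset.mem_univ _), Finset.card_univ]
  have hPX : 0 < ∏ a ∈ Finset.univ.erase a₀, X a := Finset.prod_pos (fun a _ => hX₁0 a)
  refine (mul_le_mul e3 e2 (by positivity) ?_).trans (le_of_eq ?_)
  · rw [e4]; positivity
  rw [e4]
  obtain ⟨k, hk⟩ : ∃ k, Fintype.card ι = k + 1 :=
    ⟨Fintype.card ι - 1, by have : 0 < Fintype.card ι := Fintype.card_pos_iff.mpr ⟨a₀⟩; omega⟩
  rw [hk, Nat.add_sub_cancel, pow_succ (1 + τ), pow_succ (M : ℝ)]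
  field_simp

/-- numerical lower bound, several scales -/
theorem num_lowerM {ι : Type*} [Fintype ι] [DecidableEq ι] (a₀ : ι) {M : ℕ} {X : ι → ℝ}
    {X₂ τ θ : ℝ} (hM : 1 ≤ M) (hθ1 : θ ≤ 1)
    (hθ : 0 ≤ θ) (hτ : 0 < τ) (hτ1 : τ ≤ 1) (hX₁ : ∀ a, M ≤ τ * X a) (hX₂ : 2 * M ≤ τ * X₂) :
    (1 - τ) ^ Fintype.card ι / (1 + θ) * ((∏ a ∈ Finset.univ.erase a₀, X a) * X₂) /
      (M : ℝ) ^ Fintype.card ι ≤
    (∏ a ∈ Finset.univ.erase a₀, (X a / M - 1)) * (X₂ / ((1 + θ) * M) - 1) := by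
  have hM0 : (0:ℝ) < M := by exact_mod_cast hM
  have h1 : 0 < 1 + θ := by linarith
  have hpos : ∀ {Y : ℝ}, M ≤ τ * Y → 0 < Y := by
    intro Y hY
    by_contra hcon
    have : τ * Y ≤ 0 := mul_nonpos_of_nonneg_of_nonpos hτ.le (not_lt.mp hcon)
    linarith
  have hX₁0 : ∀ a, 0 < X a := fun a => hpos (hX₁ a)
  have hX₂0 : 0 < X₂ := hpos (by linarith)
  have h1τ : 0 ≤ 1 - τ := by linarith
  have e1 : ∀ a, (1 - τ) * (X a / M) ≤ X a / M - 1 := by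
    intro a
    have : 1 ≤ τ * (X a / M) := by
      rw [← mul_div_assoc, le_div_iff₀ hM0]; linarith [hX₁ a]
    linarith
  have e2 : (1 - τ) * (X₂ / ((1 + θ) * M)) ≤ X₂ / ((1 + θ) * M) - 1 := by
    have : 1 ≤ τ * (X₂ / ((1 + θ) * M)) := by
      rw [← mul_div_assoc, le_div_iff₀ (by positivity)]
      nlinarith
    linarith
  have e3 : ∏ a ∈ Finset.univ.erase a₀, ((1 - τ) * (X a / M)) ≤
      (∏ a ∈ Finset.univ.erase a₀, (X a / M - 1)) :=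
    Finset.prod_le_prod (fun a _ => by have := hX₁0 a; positivity) (fun a _ => e1 a)
  have e4 : ∏ a ∈ Finset.univ.erase a₀, ((1 - τ) * (X a / M)) =
      (1 - τ) ^ (Fintype.card ι - 1) * ((∏ a ∈ Finset.univ.erase a₀, X a) /
        (M : ℝ) ^ (Fintype.card ι - 1)) := by
    rw [Finset.prod_mul_distrib, Finset.prod_const, Finset.prod_div_distrib, Finset.prod_const,
      Finset.card_erase_of_mem (Finset.mem_univ _), Finset.card_univ]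
  have hPX : 0 < ∏ a ∈ Finset.univ.erase a₀, X a := Finset.prod_pos (fun a _ => hX₁0 a)
  refine le_trans (le_of_eq ?_) (mul_le_mul e3 e2 (by positivity)
    (Finset.prod_nonneg (fun a _ => le_trans (by have := hX₁0 a; positivity) (e1 a))))
  rw [e4]
  obtain ⟨k, hk⟩ : ∃ k, Fintype.card ι = k + 1 :=
    ⟨Fintype.card ι - 1, by have : 0 < Fintype.card ι := Fintype.card_pos_iff.mpr ⟨a₀⟩; omega⟩
  rw [hk, Nat.add_sub_cancel, pow_succ (1 - τ), pow_succ (M : ℝ)]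
  field_simp

theorem loc_norm_leM {w : ℕ} {fc : MvPolynomial (Var n) ℤ} {S J : ℕ} {xc v : Var n → ℤ}
    (h : PDataM w fc S J xc v) {Λ : Fin r → ℝ} {ξ : Var n → ℝ} {a₀ : Var n}
    {ρ ρ' σ D₀ c₂ Δ Δ₀ τ X₂ : ℝ} {X : Var n → ℝ}
    (hρ : 0 ≤ ρ) (hρ' : 0 ≤ ρ') (hΛ : ∀ i, 0 ≤ Λ i) (hτ : 0 < τ) (hτ1 : τ ≤ 1 / 2) (hD₀ : 0 < D₀)
    (hσ : |σ| = 1) (hΔ : 0 ≤ Δ) (hΔ₀ : Δ ≤ Δ₀) {g : MvPolynomial (Var n) ℤ}
    (hf : SlopeM σ ((1 - τ) * D₀) c₂ Δ₀ Λ ξ a₀ ρ ρ' (mem' fc S J g))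
    (hX : ∀ a, X a = 2 * ρ * Λ a.1 / S) (hX₂ : X₂ = 2 * Δ / (D₀ * S))
    {N K : ℕ} (hK : K = (∏ p ∈ (Finset.range (w + 1)).filter Nat.Prime, p) ^ N)
    {D : ℕ} (hD : 0 < D) (hDw : ∀ q : ℕ, q.Prime → q ≤ w → ¬ q ∣ D)
    (h1 : ∀ a, (K * D : ℕ) ≤ τ * X a) (h2 : (K * D : ℕ) ≤ τ * X₂) (ζ : Var n → ℤ) :
    ((locSetM Λ ξ a₀ ρ ρ' S J xc (mem' fc S J g) K D ζ Δ).card : ℝ) ≤
      (1 + τ) ^ Fintype.card (Var n) / (1 - τ) * ((∏ a ∈ Finset.univ.erase a₀, X a) * X₂) /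
        (K * (D : ℝ) ^ Fintype.card (Var n)) := by
  classical
  obtain ⟨L, hL1, hL2⟩ : ∃ L : List ℕ, (∀ p ∈ L, p.Prime ∧ p ≤ w) ∧ L.prod = K := by
    refine ⟨(List.replicate N ((Finset.range (w + 1)).filter Nat.Prime).toList).flatten, ?_, ?_⟩
    · intro p hp
      rw [List.mem_flatten] at hp
      obtain ⟨l, hl, hpl⟩ := hp
      have := List.eq_of_mem_replicate hl
      subst this
      have h3 := Finset.mem_toList.mp hpl
      rw [Finset.mem_filter, Finset.mem_range] at h3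
      exact ⟨h3.2, by omega⟩
    · rw [List.prod_flatten, List.map_replicate, List.prod_replicate, Finset.prod_toList, hK]
  have hK0 : 0 < K := by
    rw [← hL2]
    apply List.prod_pos
    intro p hp
    exact (hL1 p hp).1.pos
  have hcop : Nat.Coprime (S * L.prod) D := by
    rw [Nat.coprime_comm]
    apply Nat.Coprime.symm
    apply Nat.Coprime.mul_left
    · apply Nat.Coprime.symm
      apply Nat.coprime_of_dvd
      intro q hq hqD hqS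
      exact hDw q hq (h.toP.hSW q hq hqS) hqD
    · apply Nat.coprime_list_prod_left_iff.mpr
      intro p hp
      rw [(hL1 p hp).1.coprime_iff_not_dvd]
      exact hDw p (hL1 p hp).1 (hL1 p hp).2
  have hc₁ : 0 < (1 - τ) * D₀ := by apply mul_pos _ hD₀; linarith
  have key := locSetM_card_le h.toP hρ hρ' hΛ hσ hc₁ hΔ hΔ₀ hf L hL1 hD hcop ζ
  rw [hL2] at key
  refine key.trans ?_
  have hS0 : (0:ℝ) < S := by exact_mod_cast h.toP.hS
  have hKr : (0:ℝ) < K := by exact_mod_cast hK0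
  have hDr : (0:ℝ) < D := by exact_mod_cast hD
  have e1 : ∀ a : Var n, 2 * ρ * Λ a.1 / (S * K * D : ℕ) + 1 = X a / (K * D : ℕ) + 1 := by
    intro a
    rw [hX a]; push_cast; field_simp
  have e2 : 2 * Δ / ((1 - τ) * D₀ * (S * K * D : ℕ)) = X₂ / ((1 - τ) * (K * D : ℕ)) := by
    have : 1 - τ ≠ 0 := by linarith
    rw [hX₂]; push_cast; field_simp
  rw [Finset.prod_congr rfl (fun a _ => e1 a), e2]
  have key2 := num_upperM a₀ (M := K * D) (X := X) (X₂ := X₂) (τ := τ)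
    (θ := τ) (Nat.mul_pos hK0 hD) (by linarith) hτ.le hτ h1 h2
  have h3 := mul_le_mul_of_nonneg_left key2
    (by positivity : (0:ℝ) ≤ (K:ℝ) ^ (Fintype.card (Var n) - 1))
  refine h3.trans (le_of_eq ?_)
  obtain ⟨k, hk⟩ : ∃ k, Fintype.card (Var n) = k + 1 :=
    ⟨Fintype.card (Var n) - 1, by
      have : 0 < Fintype.card (Var n) := Fintype.card_pos_iff.mpr ⟨a₀⟩
      omega⟩
  rw [hk, Nat.add_sub_cancel]
  push_cast
  rw [mul_pow, pow_succ (K:ℝ)]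
  field_simp

end Pool.Agent.Y804.MC
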